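import Pool.Agent.H30.EV.Defs
import Pool.Agent.H65.LN.Trans

/-! An extremal family. -/

set_option linter.unusedSectionVars false

open Module Submodule H15 H30.DV Pool.Agent.H7.DV

namespace H85.EV

/-- **an extremal family.** -/
theorem exists_extremal {k d : ℕ} (hk : 1 ≤ k) (hkd : k + 1 ≤ d) :
    ∃ (ι : Type) (_ : Fintype ι) (E : Type) (_ : AddCommGroup E) (_ : Module ℝ E)
      (_ : FiniteDimensional ℝ E) (v : ι → E) (h : E →ₗ[ℝ] ℝ), finrank ℝ E = d + 1 ∧
      Fintype.card ι + 1 = nDiv k d ∧ (∀ i, h (v i) = 1) ∧ Function.Injective v ∧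
      (∀ G : Submodule ℝ E, finrank ℝ G ≤ k + 1 → {i | v i ∈ G}.ncard ≤ k + finrank ℝ G) ∧
      Bdd v k := by
  classical
  have hleast := nDiv_isLeast (k := k) (d := d) (by omega)
  have hlow := le_nDiv (d := d) hk (by omega : k ≤ d)
  obtain ⟨S, hScard, hS, hnd⟩ : ∃ S : Finset (EuclideanSpace ℝ (Fin d)), S.card + 1 = nDiv k d ∧
      FlatCondition k S ∧ ¬ Divisible k S := by
    by_contra hcon
    push Not at hcon
    have h1 : nDiv k d ≤ nDiv k d - 1 := by
      apply hleast.2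
      intro S hc hS
      by_cases hge : nDiv k d ≤ S.card
      · exact hleast.1 S hge hS
      · exact hcon S (by omega) hS
    omega
  have hd' : finrank ℝ (EuclideanSpace ℝ (Fin d) × ℝ) = d + 1 := by simp
  let h : EuclideanSpace ℝ (Fin d) × ℝ →ₗ[ℝ] ℝ := LinearMap.snd ℝ _ ℝ
  let S0 : Finset (EuclideanSpace ℝ (Fin d) × ℝ) := S.map (hom _)
  have hone : ∀ x ∈ S0, h x = 1 := by
    intro x hx
    obtain ⟨y, -, rfl⟩ := Finset.mem_map.1 hx
    rfl
  have hmem : ∀ x ∈ S0, x ∈ (⊤ : Submodule ℝ (EuclideanSpace ℝ (Fin d) × ℝ)) :=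
    fun _ _ => mem_top
  have hDt : finrank ℝ (⊤ : Submodule ℝ (EuclideanSpace ℝ (Fin d) × ℝ)) = d + 1 := by
    rw [finrank_top, hd']
  have hcard0 : Fintype.card S0 = S.card := by
    rw [Fintype.card_coe, Finset.card_map]
  refine ⟨S0, inferInstance, (⊤ : Submodule ℝ (EuclideanSpace ℝ (Fin d) × ℝ)), inferInstance,
    inferInstance, inferInstance, fam S0 ⊤ hmem, h.comp (Submodule.subtype _), hDt, ?_, ?_, ?_,
    ?_, ?_⟩
  · rw [hcard0]; exact hScard
  · intro i
    exact hone i i.2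
  · intro i j hij
    have h3 : (Submodule.subtype ⊤) (fam S0 ⊤ hmem i) =
      (Submodule.subtype ⊤) (fam S0 ⊤ hmem j) := by rw [hij]
    exact Subtype.ext h3
  · refine fc_of_flat' (by omega) (by omega) ?_
    intro G hG
    have h1 := flat_linear S hS (G.map (Submodule.subtype _)) (by
      rw [← (Submodule.equivMapOfInjective (Submodule.subtype _)
        Subtype.val_injective G).finrank_eq, hG])
      (S0.filter (· ∈ G.map (Submodule.subtype _))) (Finset.filter_subset _ _)
      (fun x hx => (Finset.mem_filter.1 hx).2)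
    refine le_trans ?_ h1
    rw [← Set.ncard_coe_finset, ← Set.ncard_image_of_injective _
      (Subtype.val_injective (p := (· ∈ S0)))]
    refine Set.ncard_le_ncard ?_ (Set.toFinite _)
    rintro _ ⟨i, hi, rfl⟩
    exact Finset.mem_coe.2 (Finset.mem_filter.2 ⟨i.2, ⟨_, hi, rfl⟩⟩)
  · by_contra hnb
    obtain ⟨T, hT, c, hc, hcT⟩ := fullDep_of_not_bdd hnb
    exact hnd (divisible_of_fullDep S T hT c hc hcT)

end H85.EV
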